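import Mathlib

set_option autoImplicit false

namespace Pool.Agent.RBGrassmann

/-- `R` is a Rota–Baxter operator of weight `0` on the associative algebra `A`. -/
def IsRotaBaxter {F A : Type*} [Field F] [Ring A] [Algebra F A] (R : A →ₗ[F] A) : Prop :=
  ∀ x y : A, R x * R y = R (R x * y + x * R y)

/-- `m` is the Rota–Baxter index of the `F`-algebra `A`: the least natural number `m` such that
`R ^ m = 0` (`m`-fold composition) for every Rota–Baxter operator `R` of weight `0` on `A`. -/
def IsRBIndex (F A : Type*) [Field F] [Ring A] [Algebra F A] (m : ℕ) : Prop :=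
  IsLeast {k : ℕ | ∀ R : A →ₗ[F] A, IsRotaBaxter R → R ^ k = 0} m

end Pool.Agent.RBGrassmann
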