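import Pool.Agent.RBGrassmann.Defs

set_option autoImplicit false

/-!
# The Rota–Baxter index of the Grassmann algebras

For a field `F` of characteristic `0` and `n ≥ 1` let `Gr_n` be the Grassmann algebra on `n`
generators (Mathlib's `ExteriorAlgebra F (Fin n → F)`).  We prove `rb(Gr_n) = max n 2`, i.e.
`rb(Gr_1) = 2` and `rb(Gr_n) = n` for `n ≥ 2`.

Upper bound.  Let `N` be the augmentation ideal, `r = R 1`.  Then `R` maps into `N`, `R` kills
`N ^ n`, `R ^ 2 = (1/2) [J, R]` with `J x = r x + x r`, hence `R ^ (k+1)` is a combination of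
the operators `J ^ i R J ^ j` with `i + j = k`; and `J` maps `N ^ k` into `N ^ (k+2)` for odd `k`.

Lower bound.  `R x = (deg x + 2)⁻¹ q x` for homogeneous `x` of degree different from `-2`, where
`q` is a sum of products of disjoint pairs of generators, and `R` sends one monomial of degree `-2`
to a generator not involved in it (the other monomial of degree `-2` to zero).
-/

namespace Pool.Agent.RBGrassmann

open Module

/-- The Grassmann algebra on `n` generators. -/
abbrev Gr (F : Type*) [Field F] (n : ℕ) : Type _ := ExteriorAlgebra F (Fin n → F)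

variable {F : Type*} [Field F] {n : ℕ}

/-- The monomial basis of `Gr F n`. -/
noncomputable def e (F : Type*) [Field F] (n : ℕ) : Basis (Finset (Fin n)) F (Gr F n) :=
  (Pi.basisFun F (Fin n)).ExteriorAlgebra

lemma e_mul_of_not_disjoint (s t : Finset (Fin n)) (h : ¬ Disjoint s t) :
    e F n s * e F n t = 0 :=
  ExteriorAlgebra.basis_mul_of_not_disjoint (Pi.basisFun F (Fin n))
    ⟨s, rfl⟩ ⟨t, rfl⟩ h

lemma e_mul_of_disjoint (s t : Finset (Fin n)) (h : Disjoint s t) :
    ∃ c : F, c ≠ 0 ∧ e F n s * e F n t = c • e F n (s ∪ t) := by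
  obtain ⟨u, h1⟩ : ∃ u : ℤˣ, e F n s * e F n t = u • e F n (s ∪ t) := by
    have h1 := ExteriorAlgebra.basis_mul_of_disjoint (Pi.basisFun F (Fin n))
      (s := ⟨s, rfl⟩) (t := ⟨t, rfl⟩) h
    have h3 : ((Set.powersetCard.disjUnion (s := ⟨s, rfl⟩) (t := ⟨t, rfl⟩) h :
        Set.powersetCard (Fin n) (s.card + t.card)) : Finset (Fin n)) = s ∪ t := by
      simp [Set.powersetCard.disjUnion]
    rw [h3] at h1
    exact ⟨_, h1⟩
  refine ⟨((u : ℤ) : F), ?_, ?_⟩
  · rcases Int.units_eq_one_or u with h2 | h2 <;> simp [h2]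
  · rw [h1, Units.smul_def, Int.cast_smul_eq_zsmul]

lemma e_mul (s t : Finset (Fin n)) :
    ∃ c : F, e F n s * e F n t = c • e F n (s ∪ t) := by
  by_cases h : Disjoint s t
  · obtain ⟨c, -, hc⟩ := e_mul_of_disjoint (F := F) s t h
    exact ⟨c, hc⟩
  · exact ⟨0, by rw [e_mul_of_not_disjoint s t h, zero_smul]⟩

lemma e_eq_prod (s : Finset (Fin n)) :
    ∃ l : List (Fin n → F), l.length = s.card ∧
      e F n s = (l.map (ExteriorAlgebra.ι F)).prod := by
  unfold e
  rw [ExteriorAlgebra.basis_apply]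
  unfold ExteriorAlgebra.ιMulti_family
  rw [ExteriorAlgebra.ιMulti_apply]
  refine ⟨List.ofFn (⇑(Pi.basisFun F (Fin n)) ∘
    ⇑(Set.powersetCard.ofFinEmbEquiv.symm (Set.powersetCard.prodEquiv.symm s).snd)),
    List.length_ofFn, ?_⟩
  rw [List.map_ofFn]
  rfl

lemma e_empty : e F n ∅ = 1 := by
  obtain ⟨l, hl, h⟩ := e_eq_prod (F := F) (∅ : Finset (Fin n))
  rw [h]
  simp at hl
  simp [hl]

lemma ι_mul_prod (v : Fin n → F) (l : List (Fin n → F)) :
    ExteriorAlgebra.ι F v * (l.map (ExteriorAlgebra.ι F)).prod =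
      (-1 : F) ^ l.length • ((l.map (ExteriorAlgebra.ι F)).prod * ExteriorAlgebra.ι F v) := by
  induction l with
  | nil => simp
  | cons a l ih =>
    have h1 : ExteriorAlgebra.ι F v * ExteriorAlgebra.ι F a =
        - (ExteriorAlgebra.ι F a * ExteriorAlgebra.ι F v) :=
      eq_neg_of_add_eq_zero_left (ExteriorAlgebra.ι_add_mul_swap v a)
    rw [List.map_cons, List.prod_cons, ← mul_assoc, h1, neg_mul, mul_assoc, ih,
      List.length_cons, pow_succ, mul_smul_comm, mul_assoc]
    simp

lemma e_singleton_mul (i s : Finset (Fin n)) (hi : i.card = 1) :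
    e F n i * e F n s = (-1 : F) ^ s.card • (e F n s * e F n i) := by
  obtain ⟨l, hl, h⟩ := e_eq_prod (F := F) s
  obtain ⟨l', hl', h'⟩ := e_eq_prod (F := F) i
  rw [hi, List.length_eq_one_iff] at hl'
  obtain ⟨v, rfl⟩ := hl'
  rw [h, h']
  simp only [List.map_cons, List.map_nil, List.prod_cons, List.prod_nil, mul_one]
  rw [ι_mul_prod, hl]

/-- Filtration: span of monomials of degree at least `k`. -/
noncomputable def N (F : Type*) [Field F] (n k : ℕ) : Submodule F (Gr F n) :=
  Submodule.span F {x | ∃ s : Finset (Fin n), k ≤ s.card ∧ e F n s = x}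

lemma e_mem_N {k : ℕ} (s : Finset (Fin n)) (h : k ≤ s.card) : e F n s ∈ N F n k :=
  Submodule.subset_span ⟨s, h, rfl⟩

lemma N_anti {i j : ℕ} (h : i ≤ j) : N F n j ≤ N F n i := by
  refine Submodule.span_mono ?_
  rintro x ⟨s, hs, rfl⟩
  exact ⟨s, h.trans hs, rfl⟩

lemma N_zero : N F n 0 = ⊤ := by
  rw [eq_top_iff, ← (e F n).span_eq]
  refine Submodule.span_mono ?_
  rintro x ⟨s, rfl⟩
  exact ⟨s, Nat.zero_le _, rfl⟩

lemma N_top {k : ℕ} (hk : n < k) : N F n k = ⊥ := by
  rw [eq_bot_iff, N, Submodule.span_le]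
  rintro x ⟨s, hs, rfl⟩
  have := s.card_le_univ
  simp at this
  omega

lemma mul_mem_N {i j : ℕ} {x y : Gr F n} (hx : x ∈ N F n i) (hy : y ∈ N F n j) :
    x * y ∈ N F n (i + j) := by
  have h : N F n i * N F n j ≤ N F n (i + j) := by
    unfold N
    rw [Submodule.span_mul_span, Submodule.span_le]
    rintro _ ⟨_, ⟨s, hs, rfl⟩, _, ⟨t, ht, rfl⟩, rfl⟩
    simp only [SetLike.mem_coe]
    by_cases hd : Disjoint s t
    · obtain ⟨c, -, hc⟩ := e_mul_of_disjoint (F := F) s t hd
      rw [hc]
      refine Submodule.smul_mem _ _ (Submodule.subset_span ⟨s ∪ t, ?_, rfl⟩)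
      rw [Finset.card_union_of_disjoint hd]
      omega
    · rw [e_mul_of_not_disjoint s t hd]
      exact zero_mem _
  exact h (Submodule.mul_mem_mul hx hy)

/-- Key fact: for odd `k`, Jordan multiplication by an element of `N 1` maps `N k` to `N (k+2)`. -/
lemma jordan_mem_N {k : ℕ} (hk : Odd k) {r x : Gr F n} (hr : r ∈ N F n 1) (hx : x ∈ N F n k) :
    r * x + x * r ∈ N F n (k + 2) := by
  unfold N at hr hx
  induction hr using Submodule.span_induction with
  | mem r hr =>
    obtain ⟨t, ht, rfl⟩ := hr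
    induction hx using Submodule.span_induction with
    | mem x hx =>
      obtain ⟨s, hs, rfl⟩ := hx
      by_cases h : k + 2 ≤ t.card + s.card
      · refine N_anti h ?_
        refine add_mem (mul_mem_N (e_mem_N _ le_rfl) (e_mem_N _ le_rfl)) ?_
        rw [add_comm]
        exact mul_mem_N (e_mem_N _ le_rfl) (e_mem_N _ le_rfl)
      · have h1 : t.card = 1 := by omega
        have h2 : s.card = k := by omega
        rw [e_singleton_mul t s h1, h2, hk.neg_one_pow, neg_one_smul, neg_add_cancel]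
        exact zero_mem _
    | zero => simp
    | add x y _ _ hx hy =>
      have : e F n t * (x + y) + (x + y) * e F n t
        = (e F n t * x + x * e F n t) + (e F n t * y + y * e F n t) := by noncomm_ring
      rw [this]
      exact add_mem hx hy
    | smul c x _ hx =>
      rw [mul_smul_comm, smul_mul_assoc, ← smul_add]
      exact Submodule.smul_mem _ _ hx
  | zero => simp
  | add r r' _ _ hr hr' =>
    have : (r + r') * x + x * (r + r') = (r * x + x * r) + (r' * x + x * r') := by noncomm_ring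
    rw [this]
    exact add_mem hr hr'
  | smul c r _ hr =>
    rw [mul_smul_comm, smul_mul_assoc, ← smul_add]
    exact Submodule.smul_mem _ _ hr

/-- `A = F ⊕ N 1`. -/
lemma exists_scalar_add (x : Gr F n) : ∃ c : F, ∃ y ∈ N F n 1, x = c • (1 : Gr F n) + y := by
  have hx : x ∈ Submodule.span F (Set.range (e F n)) := (e F n).mem_span x
  induction hx using Submodule.span_induction with
  | mem x hx =>
    obtain ⟨s, rfl⟩ := hx
    by_cases hs : s = ∅
    · exact ⟨1, 0, zero_mem _, by rw [hs, e_empty]; simp⟩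
    · refine ⟨0, e F n s, e_mem_N s ?_, by simp⟩
      exact Finset.one_le_card.mpr (Finset.nonempty_iff_ne_empty.mpr hs)
  | zero => exact ⟨0, 0, zero_mem _, by simp⟩
  | add x y _ _ hx hy =>
    obtain ⟨c, x', hx', rfl⟩ := hx
    obtain ⟨d, y', hy', rfl⟩ := hy
    exact ⟨c + d, x' + y', add_mem hx' hy', by rw [add_smul]; abel⟩
  | smul a x _ hx =>
    obtain ⟨c, x', hx', rfl⟩ := hx
    exact ⟨a * c, a • x', Submodule.smul_mem _ _ hx', by rw [smul_add, smul_smul]⟩

lemma pow_mem_N {x : Gr F n} (hx : x ∈ N F n 1) (k : ℕ) : x ^ k ∈ N F n k := by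
  induction k with
  | zero => rw [N_zero]; trivial
  | succ k ih => rw [pow_succ]; exact mul_mem_N ih hx

lemma isNilpotent_of_mem {x : Gr F n} (hx : x ∈ N F n 1) : IsNilpotent x :=
  ⟨n + 1, by simpa [N_top (F := F) (Nat.lt_succ_self n)] using pow_mem_N hx (n + 1)⟩

/-- `N n` is spanned by the top monomial. -/
lemma mem_N_top {x : Gr F n} (hx : x ∈ N F n n) : ∃ c : F, x = c • e F n Finset.univ := by
  unfold N at hx
  induction hx using Submodule.span_induction with
  | mem x hx =>
    obtain ⟨s, hs, rfl⟩ := hx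
    have : s = Finset.univ := by
      apply Finset.eq_univ_of_card
      apply le_antisymm (Finset.card_le_univ s)
      simpa using hs
    exact ⟨1, by rw [this, one_smul]⟩
  | zero => exact ⟨0, by simp⟩
  | add x y _ _ hx hy =>
    obtain ⟨c, rfl⟩ := hx
    obtain ⟨d, rfl⟩ := hy
    exact ⟨c + d, by rw [add_smul]⟩
  | smul a x _ hx =>
    obtain ⟨c, rfl⟩ := hx
    exact ⟨a * c, by rw [smul_smul]⟩

/-- Every nonzero right ideal contains the top monomial. -/
lemma exists_mul_eq_top {u : Gr F n} (hu : u ≠ 0) : ∃ y : Gr F n, u * y = e F n Finset.univ := by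
  classical
  -- a monomial of minimal degree occurring in `u`
  have hne : ((e F n).repr u).support.Nonempty := by
    rw [Finsupp.support_nonempty_iff]
    simpa using hu
  obtain ⟨s, hs, hmin⟩ := Finset.exists_min_image _ Finset.card hne
  have hsc : (e F n).repr u s ≠ 0 := by simpa using hs
  obtain ⟨c, hc, hmul⟩ := e_mul_of_disjoint (F := F) s sᶜ disjoint_compl_right
  rw [show s ∪ sᶜ = Finset.univ from Finset.union_compl s] at hmul
  have key : u * e F n sᶜ = ((e F n).repr u s * c) • e F n Finset.univ := by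
    conv_lhs => rw [← (e F n).linearCombination_repr u, Finsupp.linearCombination_apply,
      Finsupp.sum, Finset.sum_mul]
    rw [Finset.sum_eq_single_of_mem s hs]
    · rw [smul_mul_assoc, hmul, smul_smul]
    · intro t ht hts
      rw [smul_mul_assoc]
      have : ¬ Disjoint t sᶜ := by
        intro hd
        rw [disjoint_compl_right_iff] at hd
        have := hmin t ht
        exact hts (Finset.eq_of_subset_of_card_le hd this)
      rw [e_mul_of_not_disjoint t sᶜ this, smul_zero]
  refine ⟨((e F n).repr u s * c)⁻¹ • e F n sᶜ, ?_⟩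
  rw [mul_smul_comm, key, smul_smul, inv_mul_cancel₀ (mul_ne_zero hsc hc), one_smul]

/-! ### Upper bound -/

section Upper

variable {R : Gr F n →ₗ[F] Gr F n}

lemma isUnit_scalar_add {c : F} (hc : c ≠ 0) {y : Gr F n} (hy : y ∈ N F n 1) :
    IsUnit (c • (1 : Gr F n) + y) := by
  have h1 : IsUnit (1 - (-(c⁻¹ • y))) :=
    (isNilpotent_of_mem (neg_mem (Submodule.smul_mem _ _ hy))).isUnit_one_sub
  have h2 : c • (1 : Gr F n) + y = c • (1 - (-(c⁻¹ • y))) := by
    rw [sub_neg_eq_add, smul_add, smul_smul, mul_inv_cancel₀ hc, one_smul]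
  rw [h2, Algebra.smul_def]
  exact ((isUnit_iff_ne_zero.mpr hc).map (algebraMap F (Gr F n))).mul h1

/-- The image of a Rota–Baxter operator of weight `0` lies in the augmentation ideal. -/
lemma image_mem (hR : IsRotaBaxter R) (x : Gr F n) : R x ∈ N F n 1 := by
  have : Module.Finite F (Gr F n) := Module.Finite.of_basis (e F n)
  obtain ⟨c, y, hy, hxy⟩ := exists_scalar_add (R x)
  by_cases hc : c = 0
  · rw [hxy, hc]; simpa using hy
  exfalso
  have hu : IsUnit (R x) := by rw [hxy]; exact isUnit_scalar_add hc hy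
  have hmap : ∀ s ∈ LinearMap.range R, LinearMap.mulLeft F (R x) s ∈ LinearMap.range R := by
    rintro _ ⟨z, rfl⟩
    exact ⟨_, (hR x z).symm⟩
  have hinj : Function.Injective ((LinearMap.mulLeft F (R x)).restrict hmap) := by
    intro a b hab
    have h := congrArg Subtype.val hab
    simp only [LinearMap.coe_restrict_apply, LinearMap.mulLeft_apply] at h
    exact Subtype.ext (hu.mul_left_cancel h)
  have hsurj := LinearMap.injective_iff_surjective.mp hinj
  obtain ⟨⟨s, z, hz⟩, hs⟩ := hsurj ⟨R x, x, rfl⟩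
  have h := congrArg Subtype.val hs
  simp only [LinearMap.coe_restrict_apply, LinearMap.mulLeft_apply] at h
  have hs1 : s = 1 := hu.mul_left_cancel (by rw [h, mul_one])
  have h1 := hR z z
  rw [hz, hs1, one_mul, mul_one, one_mul, map_add, hz, hs1] at h1
  exact one_ne_zero (left_eq_add.mp h1)

lemma e_univ_mem : e F n Finset.univ ∈ N F n n := e_mem_N _ (by simp)

lemma e_univ_mul {y : Gr F n} (hy : y ∈ N F n 1) : e F n Finset.univ * y = 0 := by
  have h := mul_mem_N (e_univ_mem (F := F) (n := n)) hy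
  rw [N_top (Nat.lt_succ_self n)] at h
  simpa using h

lemma map_top (hR : IsRotaBaxter R) : R (e F n Finset.univ) = 0 := by
  by_contra hne
  obtain ⟨y, hy⟩ := exists_mul_eq_top hne
  have h1 := hR (e F n Finset.univ) y
  rw [hy, e_univ_mul (image_mem hR y), add_zero] at h1
  have h2 : R (e F n Finset.univ) * (1 - R y) = 0 := by rw [mul_sub, mul_one, h1, sub_self]
  have h3 : IsUnit (1 - R y) := (isNilpotent_of_mem (image_mem hR y)).isUnit_one_sub
  exact hne ((h3.mul_left_eq_zero).mp h2)

lemma map_N_top (hR : IsRotaBaxter R) {x : Gr F n} (hx : x ∈ N F n n) : R x = 0 := by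
  obtain ⟨c, rfl⟩ := mem_N_top hx
  rw [map_smul, map_top hR, smul_zero]

lemma map_N_ge (hR : IsRotaBaxter R) {k : ℕ} (hk : n ≤ k) {x : Gr F n} (hx : x ∈ N F n k) :
    R x = 0 := map_N_top hR (N_anti hk hx)

/-- Jordan multiplication `x ↦ R 1 * x + x * R 1`. -/
noncomputable def jm (R : Gr F n →ₗ[F] Gr F n) : Module.End F (Gr F n) :=
  LinearMap.mulLeft F (R 1) + LinearMap.mulRight F (R 1)

lemma jm_apply (x : Gr F n) : jm R x = R 1 * x + x * R 1 := by
  simp [jm]

lemma jm_comm (hR : IsRotaBaxter R) :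
    jm R * (R : Module.End F (Gr F n)) - (R : Module.End F (Gr F n)) * jm R
      = (2 : F) • ((R : Module.End F (Gr F n)) ^ 2) := by
  refine LinearMap.ext fun x => ?_
  have h1 := hR 1 x
  have h2 := hR x 1
  rw [one_mul, map_add] at h1
  rw [mul_one, map_add] at h2
  simp only [LinearMap.sub_apply, Module.End.mul_apply, LinearMap.smul_apply, jm_apply, pow_two,
    map_add]
  rw [h1, h2, two_smul]
  abel

lemma jm_comm_pow (hR : IsRotaBaxter R) (k : ℕ) :
    jm R * (R : Module.End F (Gr F n)) ^ k - (R : Module.End F (Gr F n)) ^ k * jm R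
      = (2 * k : F) • ((R : Module.End F (Gr F n)) ^ (k + 1)) := by
  induction k with
  | zero => simp
  | succ k ih =>
    have h := jm_comm hR
    have h1 : jm R * (R : Module.End F (Gr F n)) ^ (k + 1)
        - (R : Module.End F (Gr F n)) ^ (k + 1) * jm R
        = (jm R * (R : Module.End F (Gr F n)) ^ k - (R : Module.End F (Gr F n)) ^ k * jm R)
            * (R : Module.End F (Gr F n))
          + (R : Module.End F (Gr F n)) ^ k *
            (jm R * (R : Module.End F (Gr F n)) - (R : Module.End F (Gr F n)) * jm R) := by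
      rw [pow_succ, sub_mul, mul_sub]
      simp only [mul_assoc]
      abel
    rw [h1, ih, h, smul_mul_assoc, mul_smul_comm, ← pow_succ, ← pow_add, ← add_smul]
    push_cast
    congr 1
    ring

/-- Span of the operators `jm^i * R * jm^j`, `i + j = k`. -/
noncomputable def W (R : Gr F n →ₗ[F] Gr F n) (k : ℕ) : Submodule F (Module.End F (Gr F n)) :=
  Submodule.span F {T | ∃ i j : ℕ, i + j = k ∧
    T = jm R ^ i * (R : Module.End F (Gr F n)) * jm R ^ j}

lemma jm_mul_W {k : ℕ} {T : Module.End F (Gr F n)} (hT : T ∈ W R k) : jm R * T ∈ W R (k + 1) := by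
  unfold W at hT
  induction hT using Submodule.span_induction with
  | mem T hT =>
    obtain ⟨i, j, hij, rfl⟩ := hT
    refine Submodule.subset_span ⟨i + 1, j, by omega, ?_⟩
    rw [pow_succ']; noncomm_ring
  | zero => simp
  | add x y _ _ hx hy => rw [mul_add]; exact add_mem hx hy
  | smul c x _ hx => rw [mul_smul_comm]; exact Submodule.smul_mem _ _ hx

lemma W_mul_jm {k : ℕ} {T : Module.End F (Gr F n)} (hT : T ∈ W R k) : T * jm R ∈ W R (k + 1) := by
  unfold W at hT
  induction hT using Submodule.span_induction with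
  | mem T hT =>
    obtain ⟨i, j, hij, rfl⟩ := hT
    refine Submodule.subset_span ⟨i, j + 1, by omega, ?_⟩
    rw [pow_succ]; noncomm_ring
  | zero => simp
  | add x y _ _ hx hy => rw [add_mul]; exact add_mem hx hy
  | smul c x _ hx => rw [smul_mul_assoc]; exact Submodule.smul_mem _ _ hx

lemma pow_mem_W [CharZero F] (hR : IsRotaBaxter R) (k : ℕ) :
    (R : Module.End F (Gr F n)) ^ (k + 1) ∈ W R k := by
  induction k with
  | zero => exact Submodule.subset_span ⟨0, 0, rfl, by simp⟩
  | succ k ih =>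
    have h := jm_comm_pow hR (k + 1)
    have hc : (2 * ((k + 1 : ℕ) : F)) ≠ 0 := by
      have : ((k + 1 : ℕ) : F) ≠ 0 := Nat.cast_ne_zero.mpr (Nat.succ_ne_zero k)
      exact mul_ne_zero two_ne_zero this
    have h2 : (R : Module.End F (Gr F n)) ^ (k + 1 + 1) =
        (2 * ((k + 1 : ℕ) : F))⁻¹ • (jm R * (R : Module.End F (Gr F n)) ^ (k + 1)
          - (R : Module.End F (Gr F n)) ^ (k + 1) * jm R) := by
      rw [h, smul_smul, inv_mul_cancel₀ hc, one_smul]
    rw [h2]
    exact Submodule.smul_mem _ _ (sub_mem (jm_mul_W ih) (W_mul_jm ih))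

lemma jm_pow_mem (hR : IsRotaBaxter R) (k : ℕ) {x : Gr F n} (hx : x ∈ N F n 1) :
    (jm R ^ k) x ∈ N F n (2 * k + 1) := by
  induction k with
  | zero => simpa using hx
  | succ k ih =>
    rw [pow_succ', Module.End.mul_apply, jm_apply]
    exact jordan_mem_N ⟨k, rfl⟩ (image_mem hR 1) ih

lemma pow_apply_eq_zero [CharZero F] (hR : IsRotaBaxter R) (hn : 1 ≤ n) {x : Gr F n}
    (hx : x ∈ N F n 1) : ((R : Module.End F (Gr F n)) ^ n) x = 0 := by
  have h : ∀ T ∈ W R (n - 1), T x = 0 := by
    intro T hT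
    unfold W at hT
    induction hT using Submodule.span_induction with
    | mem T hT =>
      obtain ⟨i, j, hij, rfl⟩ := hT
      rw [Module.End.mul_apply, Module.End.mul_apply]
      by_cases hj : n ≤ 2 * j + 1
      · rw [map_N_ge hR hj (jm_pow_mem hR j hx), map_zero]
      · have h1 := jm_pow_mem hR i (image_mem hR ((jm R ^ j) x))
        rw [N_top (by omega)] at h1
        simpa using h1
    | zero => simp
    | add x y _ _ hx hy => rw [LinearMap.add_apply, hx, hy, add_zero]
    | smul c x _ hx => rw [LinearMap.smul_apply, hx, smul_zero]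
  have h2 := pow_mem_W hR (n - 1)
  rw [Nat.sub_add_cancel hn] at h2
  exact h _ h2

lemma mul_pow_one (hR : IsRotaBaxter R) (k : ℕ) :
    R 1 * ((R : Module.End F (Gr F n)) ^ k) 1 =
      ((k : F) + 1) • ((R : Module.End F (Gr F n)) ^ (k + 1)) 1 := by
  induction k with
  | zero => simp
  | succ k ih =>
    have e1 : ∀ m : ℕ, R (((R : Module.End F (Gr F n)) ^ m) 1)
        = ((R : Module.End F (Gr F n)) ^ (m + 1)) 1 := by
      intro m; rw [pow_succ', Module.End.mul_apply]
    rw [← e1 k, hR 1, one_mul, map_add, ih, map_smul, e1, e1, e1]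
    push_cast
    rw [add_smul ((k : F) + 1) 1, one_smul]

lemma pow_one_eq [CharZero F] (hR : IsRotaBaxter R) (k : ℕ) :
    ((k.factorial : F)) • ((R : Module.End F (Gr F n)) ^ k) 1 = (R 1) ^ k := by
  induction k with
  | zero => simp
  | succ k ih =>
    rw [pow_succ' (R 1), ← ih, mul_smul_comm, mul_pow_one hR, smul_smul, Nat.factorial_succ]
    push_cast
    congr 1
    ring

lemma pow_one_eq_zero [CharZero F] (hR : IsRotaBaxter R) (hn : 2 ≤ n) :
    ((R : Module.End F (Gr F n)) ^ n) 1 = 0 := by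
  have h1 : ∀ k : ℕ, (jm R ^ k) (R 1) = (2 ^ k : F) • (R 1) ^ (k + 1) := by
    intro k
    induction k with
    | zero => simp
    | succ k ih =>
      rw [pow_succ', Module.End.mul_apply, ih, map_smul, jm_apply, ← pow_succ', ← pow_succ,
        ← two_smul F, smul_smul]
      congr 1
      ring
  have h2 := jm_pow_mem hR (n - 1) (image_mem hR 1)
  rw [h1 (n - 1), Nat.sub_add_cancel (by omega), N_top (by omega)] at h2
  have h3 : (R 1) ^ n = 0 := by
    have h4 : (2 ^ (n - 1) : F) • (R 1) ^ n = 0 := by simpa using h2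
    exact (smul_eq_zero.mp h4).resolve_left (pow_ne_zero _ two_ne_zero)
  have h5 := pow_one_eq hR n
  rw [h3] at h5
  exact (smul_eq_zero.mp h5).resolve_left (Nat.cast_ne_zero.mpr (Nat.factorial_ne_zero n))

lemma sq_eq_zero_of_one (hR : IsRotaBaxter R) (hn : n = 1) (x : Gr F n) : R (R x) = 0 := by
  have h0 : x ∈ N F n 0 := by rw [N_zero]; trivial
  have h3 : x * R 1 ∈ N F n (0 + 1) := mul_mem_N h0 (image_mem hR 1)
  have h4 : R (x * R 1) = 0 := map_N_ge hR (by omega) h3
  have h1 : R x * R 1 = R (R x) := by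
    have h := hR x 1
    rw [mul_one, map_add, h4, add_zero] at h
    exact h
  have h2 := mul_mem_N (image_mem hR x) (image_mem hR 1)
  rw [N_top (by omega), Submodule.mem_bot] at h2
  rw [← h1, h2]

theorem upper [CharZero F] (hR : IsRotaBaxter R) (hn : 1 ≤ n) :
    (R : Module.End F (Gr F n)) ^ (max n 2) = 0 := by
  rcases Nat.lt_or_ge n 2 with h | h
  · rw [max_eq_right h.le]
    refine LinearMap.ext fun x => ?_
    rw [pow_two, Module.End.mul_apply, sq_eq_zero_of_one hR (by omega) x, LinearMap.zero_apply]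
  · rw [max_eq_left h]
    refine LinearMap.ext fun x => ?_
    obtain ⟨c, y, hy, rfl⟩ := exists_scalar_add x
    rw [map_add, map_smul, pow_one_eq_zero hR h, pow_apply_eq_zero hR hn hy, smul_zero, add_zero,
      LinearMap.zero_apply]

end Upper

/-! ### Lower bound: an explicit operator -/

section Lower

/-- generators, indexed by all natural numbers (zero when out of range) -/
noncomputable def gx (F : Type*) [Field F] (n i : ℕ) : Gr F n :=
  if h : i < n then e F n {⟨i, h⟩} else 0

/-- integer degrees of the generators -/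
def dg (n : ℕ) (i : Fin n) : ℤ :=
  if i.val = 0 then -2 * (n / 2 : ℕ) else if i.val = 1 then 0
  else if i.val = 2 * (n / 2) then 2 * (n / 2 : ℕ) + 2 else 1

/-- integer degree of a monomial -/
def wt (n : ℕ) (s : Finset (Fin n)) : ℤ := ∑ i ∈ s, dg n i

/-- weight spaces -/
noncomputable def V (F : Type*) [Field F] (n : ℕ) (a : ℤ) : Submodule F (Gr F n) :=
  Submodule.span F {x | ∃ s : Finset (Fin n), wt n s = a ∧ e F n s = x}

lemma e_mem_V (s : Finset (Fin n)) : e F n s ∈ V F n (wt n s) := Submodule.subset_span ⟨s, rfl, rfl⟩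

lemma wt_union {s t : Finset (Fin n)} (h : Disjoint s t) : wt n (s ∪ t) = wt n s + wt n t :=
  Finset.sum_union h

lemma mul_mem_V {a b : ℤ} {x y : Gr F n} (hx : x ∈ V F n a) (hy : y ∈ V F n b) :
    x * y ∈ V F n (a + b) := by
  have h : V F n a * V F n b ≤ V F n (a + b) := by
    unfold V
    rw [Submodule.span_mul_span, Submodule.span_le]
    rintro _ ⟨_, ⟨s, hs, rfl⟩, _, ⟨t, ht, rfl⟩, rfl⟩
    simp only [SetLike.mem_coe]
    by_cases hd : Disjoint s t
    · obtain ⟨c, -, hc⟩ := e_mul_of_disjoint (F := F) s t hd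
      rw [hc]
      refine Submodule.smul_mem _ _ (Submodule.subset_span ⟨s ∪ t, ?_, rfl⟩)
      rw [wt_union hd, hs, ht]
    · rw [e_mul_of_not_disjoint s t hd]
      exact zero_mem _
  exact h (Submodule.mul_mem_mul hx hy)

/-- the central element `q` of degree `2` -/
noncomputable def qq (F : Type*) [Field F] (n k : ℕ) : Gr F n :=
  ∑ i ∈ Finset.range k, gx F n (2 * i + 2) * gx F n (2 * i + 3)

noncomputable def q (F : Type*) [Field F] (n : ℕ) : Gr F n :=
  qq F n (n / 2 - 1) + gx F n 0 * gx F n (2 * (n / 2))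

/-- the support of the functional -/
def S (n : ℕ) : Finset (Fin n) :=
  Finset.univ.filter fun i => i.val ≠ 1 ∧ i.val ≠ 2 * (n / 2)

/-- the coordinate functional -/
noncomputable def lam (F : Type*) [Field F] (n : ℕ) : Gr F n →ₗ[F] F := (e F n).coord (S n)

/-- the diagonal operator -/
noncomputable def Dg (F : Type*) [Field F] (n : ℕ) : Gr F n →ₗ[F] Gr F n :=
  (e F n).constr F fun s => (((wt n s : ℤ) : F) + 2)⁻¹ • e F n s

/-- the extremal Rota–Baxter operator -/
noncomputable def Rx (F : Type*) [Field F] (n : ℕ) : Gr F n →ₗ[F] Gr F n :=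
  (LinearMap.mulLeft F (q F n)).comp (Dg F n) + (lam F n).smulRight (gx F n 1)

lemma Dg_apply {a : ℤ} {x : Gr F n} (hx : x ∈ V F n a) : Dg F n x = ((a : F) + 2)⁻¹ • x := by
  unfold V at hx
  induction hx using Submodule.span_induction with
  | mem x hx =>
    obtain ⟨s, hs, rfl⟩ := hx
    rw [Dg, Basis.constr_basis, hs]
  | zero => simp
  | add x y _ _ hx hy => rw [map_add, hx, hy, smul_add]
  | smul c x _ hx => rw [map_smul, hx, smul_comm]

lemma Rx_apply {a : ℤ} {x : Gr F n} (hx : x ∈ V F n a) :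
    Rx F n x = ((a : F) + 2)⁻¹ • (q F n * x) + lam F n x • gx F n 1 := by
  simp [Rx, Dg_apply hx]

lemma gx_eq {i : ℕ} (h : i < n) : gx F n i = e F n {⟨i, h⟩} := by simp [gx, h]

lemma gx_eq_zero {i : ℕ} (h : n ≤ i) : gx F n i = 0 := by simp [gx, h]

lemma gx_eq_ι (i : ℕ) : ∃ v : Fin n → F, gx F n i = ExteriorAlgebra.ι F v := by
  by_cases h : i < n
  · rw [gx_eq h]
    obtain ⟨l, hl, hl2⟩ := e_eq_prod (F := F) ({⟨i, h⟩} : Finset (Fin n))
    rw [Finset.card_singleton, List.length_eq_one_iff] at hl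
    obtain ⟨v, rfl⟩ := hl
    exact ⟨v, by rw [hl2]; simp⟩
  · exact ⟨0, by rw [gx_eq_zero (by omega), map_zero]⟩

lemma gx_mul_self (i : ℕ) : gx F n i * gx F n i = 0 := by
  obtain ⟨v, hv⟩ := gx_eq_ι (F := F) (n := n) i
  rw [hv, ExteriorAlgebra.ι_sq_zero]

lemma gx_mul_swap (i j : ℕ) : gx F n i * gx F n j = - (gx F n j * gx F n i) := by
  obtain ⟨v, hv⟩ := gx_eq_ι (F := F) (n := n) i
  obtain ⟨w, hw⟩ := gx_eq_ι (F := F) (n := n) j
  rw [hv, hw]
  exact eq_neg_of_add_eq_zero_left (ExteriorAlgebra.ι_add_mul_swap v w)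

lemma pair_central (i j : ℕ) (z : Gr F n) :
    (gx F n i * gx F n j) * z = z * (gx F n i * gx F n j) := by
  obtain ⟨v, hv⟩ := gx_eq_ι (F := F) (n := n) i
  obtain ⟨w, hw⟩ := gx_eq_ι (F := F) (n := n) j
  rw [hv, hw]
  have hz : z ∈ Submodule.span F (Set.range (e F n)) := (e F n).mem_span z
  induction hz using Submodule.span_induction with
  | mem z hz =>
    obtain ⟨s, rfl⟩ := hz
    obtain ⟨l, hl, hl2⟩ := e_eq_prod (F := F) s
    rw [hl2, mul_assoc, ι_mul_prod, mul_smul_comm, ← mul_assoc, ι_mul_prod, smul_mul_assoc,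
      smul_smul, ← mul_pow]
    simp [mul_assoc]
  | zero => simp
  | add x y _ _ hx hy => rw [mul_add, add_mul, hx, hy]
  | smul c x _ hx => rw [mul_smul_comm, smul_mul_assoc, hx]

lemma q_central (z : Gr F n) : q F n * z = z * q F n := by
  rw [q, qq, add_mul, mul_add, Finset.sum_mul, Finset.mul_sum, pair_central]
  congr 1
  exact Finset.sum_congr rfl fun i _ => pair_central _ _ _

/-- A weight `-2` set contains index `0` and all middle indices. -/
lemma mem_of_wt (hn : 2 ≤ n) {s : Finset (Fin n)} (hs : wt n s = -2) :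
    (∀ i : Fin n, i.val = 0 → i ∈ s) ∧
    (∀ i : Fin n, 2 ≤ i.val → i.val < 2 * (n / 2) → i ∈ s) := by
  classical
  set m : ℕ := n / 2 with hm
  -- split the sum
  have hpos : ∀ i : Fin n, i.val ≠ 0 → 0 ≤ dg n i := by
    intro i hi
    unfold dg
    rw [if_neg hi]
    split_ifs <;> omega
  let z : Fin n := ⟨0, by omega⟩
  have hdz : dg n z = -2 * (m : ℤ) := by simp [dg, z, hm]
  have h0 : z ∈ s := by
    by_contra h
    have : 0 ≤ wt n s := by
      refine Finset.sum_nonneg fun i hi => hpos i ?_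
      intro h1
      exact h (by rwa [show z = i from Fin.ext h1.symm])
    omega
  refine ⟨fun i hi => by rwa [show i = z from Fin.ext hi], ?_⟩
  -- middle indices
  let mid : Finset (Fin n) := Finset.univ.filter fun i => 2 ≤ i.val ∧ i.val < 2 * m
  have hmidcard : mid.card = 2 * m - 2 := by
    have : mid.map Fin.valEmbedding = Finset.Ico 2 (2 * m) := by
      ext j
      simp only [mid, Finset.mem_map, Finset.mem_filter, Finset.mem_univ, true_and,
        Fin.valEmbedding_apply, Finset.mem_Ico]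
      constructor
      · rintro ⟨i, hi, rfl⟩; exact hi
      · intro hj
        exact ⟨⟨j, by omega⟩, hj, rfl⟩
    rw [← Finset.card_map Fin.valEmbedding, this, Nat.card_Ico]
  have hsplit : wt n s = dg n z + ∑ i ∈ s.erase z, dg n i := (Finset.add_sum_erase s _ h0).symm
  have hsum : ∑ i ∈ s.erase z, dg n i = 2 * (m : ℤ) - 2 := by
    rw [hs, hdz] at hsplit; linarith
  have hnn : ∀ i ∈ s.erase z, 0 ≤ dg n i := by
    intro i hi
    refine hpos i fun h => ?_
    exact (Finset.mem_erase.mp hi).1 (Fin.ext h)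
  -- the index `2m` does not occur
  have hno : ∀ i ∈ s.erase z, i.val ≠ 2 * m := by
    intro i hi h
    have h1 := Finset.single_le_sum hnn hi
    rw [hsum] at h1
    have h2 : dg n i = 2 * (m : ℤ) + 2 := by
      unfold dg
      rw [if_neg (by omega), if_neg (by omega), if_pos h]
    omega
  -- so the sum is the number of middle indices in `s`
  have hval : ∀ i ∈ s.erase z, dg n i = if i ∈ mid then 1 else 0 := by
    intro i hi
    have h1 : i.val ≠ 0 := fun h => (Finset.mem_erase.mp hi).1 (Fin.ext h)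
    have h2 := hno i hi
    have h3 : i ∈ mid ↔ 2 ≤ i.val ∧ i.val < 2 * m := by simp [mid]
    have h4 := i.isLt
    unfold dg
    rw [if_neg h1]
    by_cases h5 : i.val = 1
    · rw [if_pos h5, if_neg (by rw [h3]; omega)]
    · rw [if_neg h5, if_neg h2, if_pos (by rw [h3]; omega)]
  rw [Finset.sum_congr rfl hval, Finset.sum_boole] at hsum
  have hcard : (((s.erase z).filter fun i => i ∈ mid).card : ℤ) = mid.card := by
    rw [hsum, hmidcard]; omega
  have hsub : ((s.erase z).filter fun i => i ∈ mid) ⊆ mid := by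
    intro i hi
    exact (Finset.mem_filter.mp hi).2
  have heq := Finset.eq_of_subset_of_card_le hsub (by exact_mod_cast hcard.ge)
  intro i hi1 hi2
  have : i ∈ mid := by simp [mid, hi1, hi2]
  rw [← heq] at this
  exact Finset.mem_of_mem_erase (Finset.mem_filter.mp this).1

lemma wt_S (hn : 2 ≤ n) : wt n (S n) = -2 := by
  classical
  set m : ℕ := n / 2 with hm
  let z : Fin n := ⟨0, by omega⟩
  have hdz : dg n z = -2 * (m : ℤ) := by simp [dg, z, hm]
  have h0 : z ∈ S n := by
    simp only [S, Finset.mem_filter, Finset.mem_univ, true_and, z]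
    omega
  let mid : Finset (Fin n) := Finset.univ.filter fun i => 2 ≤ i.val ∧ i.val < 2 * m
  have hmidcard : mid.card = 2 * m - 2 := by
    have : mid.map Fin.valEmbedding = Finset.Ico 2 (2 * m) := by
      ext j
      simp only [mid, Finset.mem_map, Finset.mem_filter, Finset.mem_univ, true_and,
        Fin.valEmbedding_apply, Finset.mem_Ico]
      constructor
      · rintro ⟨i, hi, rfl⟩; exact hi
      · intro hj
        exact ⟨⟨j, by omega⟩, hj, rfl⟩
    rw [← Finset.card_map Fin.valEmbedding, this, Nat.card_Ico]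
  have herase : (S n).erase z = mid := by
    ext i
    have h4 := i.isLt
    simp only [S, mid, Finset.mem_erase, Finset.mem_filter, Finset.mem_univ, true_and, z, ne_eq,
      Fin.ext_iff]
    omega
  rw [wt, ← Finset.add_sum_erase _ _ h0, hdz, herase]
  have hval : ∀ i ∈ mid, dg n i = 1 := by
    intro i hi
    have h3 : 2 ≤ i.val ∧ i.val < 2 * m := by simpa [mid] using hi
    unfold dg
    rw [if_neg (by omega), if_neg (by omega), if_neg (by omega)]
  rw [Finset.sum_congr rfl hval, Finset.sum_const, hmidcard]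
  simp only [mul_one, nsmul_eq_mul]
  omega

lemma lam_eq_zero (hn : 2 ≤ n) {a : ℤ} (ha : a ≠ -2) {x : Gr F n} (hx : x ∈ V F n a) :
    lam F n x = 0 := by
  unfold V at hx
  induction hx using Submodule.span_induction with
  | mem x hx =>
    obtain ⟨s, hs, rfl⟩ := hx
    have : s ≠ S n := by
      rintro rfl
      rw [wt_S hn] at hs
      exact ha hs.symm
    simp [lam, this]
  | zero => simp
  | add x y _ _ hx hy => rw [map_add, hx, hy, add_zero]
  | smul c x _ hx => rw [map_smul, hx, smul_zero]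

lemma gx_mem_V {i : ℕ} (h : i < n) : gx F n i ∈ V F n (dg n ⟨i, h⟩) := by
  rw [gx_eq h]
  have := e_mem_V (F := F) (n := n) {⟨i, h⟩}
  simpa [wt] using this

lemma q_mem_V (hn : 2 ≤ n) : q F n ∈ V F n 2 := by
  unfold q qq
  refine add_mem (sum_mem fun i hi => ?_) ?_
  · have hi' := Finset.mem_range.mp hi
    have h1 : 2 * i + 2 < n := by omega
    have h2 : 2 * i + 3 < n := by omega
    have h := mul_mem_V (gx_mem_V (F := F) h1) (gx_mem_V (F := F) h2)
    have e1 : dg n ⟨2 * i + 2, h1⟩ = 1 := by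
      unfold dg
      rw [if_neg (by simp), if_neg (by simp), if_neg (by simp only; omega)]
    have e2 : dg n ⟨2 * i + 3, h2⟩ = 1 := by
      unfold dg
      rw [if_neg (by simp), if_neg (by simp), if_neg (by simp only; omega)]
    rw [e1, e2] at h
    exact h
  · by_cases h2 : 2 * (n / 2) < n
    · have h1 : 0 < n := by omega
      have h := mul_mem_V (gx_mem_V (F := F) h1) (gx_mem_V (F := F) h2)
      have e1 : dg n ⟨0, h1⟩ = -2 * (n / 2 : ℕ) := by simp [dg]
      have e2 : dg n ⟨2 * (n / 2), h2⟩ = 2 * (n / 2 : ℕ) + 2 := by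
        unfold dg
        rw [if_neg (by simp only; omega), if_neg (by simp only; omega), if_pos rfl]
      rw [e1, e2] at h
      have e3 : (-2 * ((n / 2 : ℕ) : ℤ)) + (2 * ((n / 2 : ℕ) : ℤ) + 2) = 2 := by ring
      rw [e3] at h
      exact h
    · rw [gx_eq_zero (n := n) (i := 2 * (n / 2)) (by omega), mul_zero]
      exact zero_mem _

lemma v_mem_V (hn : 2 ≤ n) : gx F n 1 ∈ V F n 0 := by
  have h := gx_mem_V (F := F) (n := n) (i := 1) (by omega)
  have e1 : dg n ⟨1, by omega⟩ = 0 := by simp [dg]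
  rwa [e1] at h

lemma gx_mul_e_of_mem {i : ℕ} {s : Finset (Fin n)} (h : i < n) (hi : ⟨i, h⟩ ∈ s) :
    gx F n i * e F n s = 0 := by
  rw [gx_eq h]
  refine e_mul_of_not_disjoint _ _ ?_
  simpa using hi

lemma q_mul_eq_zero (hn : 2 ≤ n) {x : Gr F n} (hx : x ∈ V F n (-2)) : q F n * x = 0 := by
  unfold V at hx
  induction hx using Submodule.span_induction with
  | mem x hx =>
    obtain ⟨s, hs, rfl⟩ := hx
    obtain ⟨h1, h2⟩ := mem_of_wt hn hs
    unfold q qq
    rw [add_mul, Finset.sum_mul]
    have e1 : ∀ i ∈ Finset.range (n / 2 - 1),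
        gx F n (2 * i + 2) * gx F n (2 * i + 3) * e F n s = 0 := by
      intro i hi
      have hi' := Finset.mem_range.mp hi
      have h3 : 2 * i + 3 < n := by omega
      rw [mul_assoc, gx_mul_e_of_mem h3 (h2 _ (by simp only; omega) (by simp only; omega)),
        mul_zero]
    rw [Finset.sum_eq_zero e1, zero_add, gx_mul_swap 0, neg_mul, mul_assoc,
      gx_mul_e_of_mem (i := 0) (by omega) (h1 _ rfl), mul_zero, neg_zero]
  | zero => simp
  | add x y _ _ hx hy => rw [mul_add, hx, hy, add_zero]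
  | smul c x _ hx => rw [mul_smul_comm, hx, smul_zero]

lemma lam_e_mul (hn : 2 ≤ n) (y : Gr F n) : lam F n (gx F n 1 * y) = 0 := by
  have h1 : 1 < n := by omega
  have hy : y ∈ Submodule.span F (Set.range (e F n)) := (e F n).mem_span y
  induction hy using Submodule.span_induction with
  | mem y hy =>
    obtain ⟨s, rfl⟩ := hy
    rw [gx_eq h1]
    obtain ⟨c, hc⟩ := e_mul (F := F) {⟨1, h1⟩} s
    have : ({⟨1, h1⟩} ∪ s : Finset (Fin n)) ≠ S n := by
      intro h
      have h2 : (⟨1, h1⟩ : Fin n) ∈ S n := by rw [← h]; simp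
      simp [S] at h2
    rw [hc, map_smul]
    generalize ({⟨1, h1⟩} ∪ s : Finset (Fin n)) = t at this
    simp [lam, this]
  | zero => simp
  | add x y _ _ hx hy => rw [mul_add, map_add, hx, hy, add_zero]
  | smul c x _ hx => rw [mul_smul_comm, map_smul, hx, smul_zero]

lemma lam_mul_e (hn : 2 ≤ n) (y : Gr F n) : lam F n (y * gx F n 1) = 0 := by
  have h1 : 1 < n := by omega
  have hy : y ∈ Submodule.span F (Set.range (e F n)) := (e F n).mem_span y
  induction hy using Submodule.span_induction with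
  | mem y hy =>
    obtain ⟨s, rfl⟩ := hy
    rw [gx_eq h1]
    obtain ⟨c, hc⟩ := e_mul (F := F) s {⟨1, h1⟩}
    have : (s ∪ {⟨1, h1⟩} : Finset (Fin n)) ≠ S n := by
      intro h
      have h2 : (⟨1, h1⟩ : Fin n) ∈ S n := by rw [← h]; simp
      simp [S] at h2
    rw [hc, map_smul]
    generalize (s ∪ {⟨1, h1⟩} : Finset (Fin n)) = t at this
    simp [lam, this]
  | zero => simp
  | add x y _ _ hx hy => rw [add_mul, map_add, hx, hy, add_zero]
  | smul c x _ hx => rw [smul_mul_assoc, map_smul, hx, smul_zero]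

lemma Rx_ne (hn : 2 ≤ n) {a : ℤ} {x : Gr F n} (ha : a ≠ -2) (hx : x ∈ V F n a) :
    Rx F n x = ((a : F) + 2)⁻¹ • (q F n * x) := by
  rw [Rx_apply hx, lam_eq_zero hn ha hx, zero_smul, add_zero]

lemma Rx_eq (hn : 2 ≤ n) {x : Gr F n} (hx : x ∈ V F n (-2)) :
    Rx F n x = lam F n x • gx F n 1 := by
  rw [Rx_apply hx, q_mul_eq_zero hn hx, smul_zero, zero_add]

lemma Rx_rb_hom [CharZero F] (hn : 2 ≤ n) {a b : ℤ} {x y : Gr F n} (hx : x ∈ V F n a)
    (hy : y ∈ V F n b) :
    Rx F n x * Rx F n y = Rx F n (Rx F n x * y + x * Rx F n y) := by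
  have hq := q_mem_V (F := F) hn
  have hv := v_mem_V (F := F) hn
  have hqc := q_central (F := F) (n := n)
  have hvy : gx F n 1 * y ∈ V F n b := by simpa using mul_mem_V hv hy
  have hxv : x * gx F n 1 ∈ V F n a := by simpa using mul_mem_V hx hv
  by_cases ha : a = -2
  · subst ha
    have hqx := q_mul_eq_zero hn hx
    by_cases hb : b = -2
    · subst hb
      rw [Rx_eq hn hx, Rx_eq hn hy, smul_mul_smul_comm, gx_mul_self, smul_zero, smul_mul_assoc,
        mul_smul_comm, map_add, map_smul, map_smul, Rx_eq hn hvy, Rx_eq hn hxv, lam_e_mul hn,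
        lam_mul_e hn]
      simp
    · rw [Rx_eq hn hx, Rx_ne hn hb hy, smul_mul_assoc, mul_smul_comm, smul_mul_assoc,
        mul_smul_comm, ← mul_assoc x, ← hqc x, hqx, zero_mul, smul_zero, add_zero, map_smul,
        Rx_ne hn hb hvy, ← mul_assoc, ← mul_assoc, hqc]
  · by_cases hb : b = -2
    · subst hb
      have hqy := q_mul_eq_zero hn hy
      rw [Rx_eq hn hy, Rx_ne hn ha hx, smul_mul_assoc, mul_smul_comm, smul_mul_assoc,
        mul_smul_comm, hqc x, mul_assoc x _ y, hqy, mul_zero, smul_zero, zero_add, map_smul,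
        Rx_ne hn ha hxv, smul_smul, smul_smul, mul_comm, ← hqc x, mul_assoc]
    · have hqxy : q F n * (x * y) ∈ V F n (2 + (a + b)) := mul_mem_V hq (mul_mem_V hx hy)
      have hA : ((a : F) + 2) ≠ 0 := by
        have : ((a + 2 : ℤ) : F) ≠ 0 := Int.cast_ne_zero.mpr (by omega)
        push_cast at this
        exact this
      have hB : ((b : F) + 2) ≠ 0 := by
        have : ((b + 2 : ℤ) : F) ≠ 0 := Int.cast_ne_zero.mpr (by omega)
        push_cast at this
        exact this
      have h1 : Rx F n x * y + x * Rx F n y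
          = (((a : F) + 2)⁻¹ + ((b : F) + 2)⁻¹) • (q F n * (x * y)) := by
        rw [Rx_ne hn ha hx, Rx_ne hn hb hy, smul_mul_assoc, mul_smul_comm, ← mul_assoc x, ← hqc x,
          mul_assoc, add_smul]
      have h2 : Rx F n x * Rx F n y
          = (((a : F) + 2)⁻¹ * ((b : F) + 2)⁻¹) • (q F n * (q F n * (x * y))) := by
        rw [Rx_ne hn ha hx, Rx_ne hn hb hy, smul_mul_smul_comm, hqc y, mul_assoc, ← mul_assoc x,
          ← hqc (x * y)]
      rw [h1, h2, map_smul, Rx_apply hqxy]
      by_cases hab : a + b + 4 = 0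
      · have hqq : q F n * (q F n * (x * y)) = 0 := by
          refine q_mul_eq_zero hn ?_
          have : 2 + (a + b) = -2 := by omega
          rwa [this] at hqxy
        have hsum : ((a : F) + 2)⁻¹ + ((b : F) + 2)⁻¹ = 0 := by
          have h3 : ((a + b + 4 : ℤ) : F) = 0 := by rw [hab]; simp
          push_cast at h3
          field_simp
          linear_combination h3
        rw [hqq, hsum, smul_zero, zero_smul]
      · have hAB : ((2 + (a + b) : ℤ) : F) + 2 ≠ 0 := by
          have : ((2 + (a + b) + 2 : ℤ) : F) ≠ 0 := Int.cast_ne_zero.mpr (by omega)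
          push_cast at this ⊢
          exact this
        rw [lam_eq_zero hn (by omega) hqxy, zero_smul, add_zero, smul_smul]
        congr 1
        push_cast at hAB ⊢
        field_simp
        ring

lemma Rx_rb [CharZero F] (hn : 2 ≤ n) : IsRotaBaxter (Rx F n) := by
  intro x y
  have hx : x ∈ Submodule.span F (Set.range (e F n)) := (e F n).mem_span x
  have hy : y ∈ Submodule.span F (Set.range (e F n)) := (e F n).mem_span y
  induction hx using Submodule.span_induction with
  | mem x hx =>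
    obtain ⟨s, rfl⟩ := hx
    induction hy using Submodule.span_induction with
    | mem y hy =>
      obtain ⟨t, rfl⟩ := hy
      exact Rx_rb_hom hn (e_mem_V s) (e_mem_V t)
    | zero => simp
    | add y z _ _ hy hz =>
      rw [map_add, mul_add, mul_add, mul_add, hy, hz, ← map_add]
      congr 1
      abel
    | smul c y _ hy =>
      rw [map_smul, mul_smul_comm, mul_smul_comm, mul_smul_comm, hy, ← smul_add, map_smul]
  | zero => simp
  | add x z _ _ hx hz =>
    rw [map_add, add_mul, add_mul, add_mul, hx, hz, ← map_add]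
    congr 1
    abel
  | smul c x _ hx =>
    rw [map_smul, smul_mul_assoc, smul_mul_assoc, smul_mul_assoc, hx, ← smul_add, map_smul]

/-- `z` is a nonzero multiple of the monomial `e s` -/
def Mon (z : Gr F n) (s : Finset (Fin n)) : Prop := ∃ c : F, c ≠ 0 ∧ z = c • e F n s

lemma Mon.mul {z w : Gr F n} {s t : Finset (Fin n)} (hz : Mon z s) (hw : Mon w t)
    (h : Disjoint s t) : Mon (z * w) (s ∪ t) := by
  obtain ⟨c, hc, rfl⟩ := hz
  obtain ⟨d, hd, rfl⟩ := hw
  obtain ⟨f, hf, h2⟩ := e_mul_of_disjoint (F := F) s t h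
  exact ⟨c * d * f, mul_ne_zero (mul_ne_zero hc hd) hf,
    by rw [smul_mul_smul_comm, h2, smul_smul]⟩

lemma Mon.smul {z : Gr F n} {s : Finset (Fin n)} (hz : Mon z s) {c : F} (hc : c ≠ 0) :
    Mon (c • z) s := by
  obtain ⟨d, hd, rfl⟩ := hz
  exact ⟨c * d, mul_ne_zero hc hd, by rw [smul_smul]⟩

lemma Mon.ne_zero {z : Gr F n} {s : Finset (Fin n)} (hz : Mon z s) : z ≠ 0 := by
  obtain ⟨c, hc, rfl⟩ := hz
  exact smul_ne_zero hc ((e F n).ne_zero s)

lemma mon_gx {i : ℕ} (h : i < n) : Mon (gx F n i) {⟨i, h⟩} :=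
  ⟨1, one_ne_zero, by rw [gx_eq h, one_smul]⟩

/-- product of the first `k` pairs -/
noncomputable def PP (F : Type*) [Field F] (n : ℕ) : ℕ → Gr F n
  | 0 => 1
  | k + 1 => PP F n k * (gx F n (2 * k + 2) * gx F n (2 * k + 3))

lemma mon_PP (k : ℕ) (hk : 2 * k + 2 ≤ n) :
    Mon (PP F n k) (Finset.univ.filter fun i : Fin n => 2 ≤ i.val ∧ i.val < 2 * k + 2) := by
  induction k with
  | zero =>
    refine ⟨1, one_ne_zero, ?_⟩
    have : (Finset.univ.filter fun i : Fin n => 2 ≤ i.val ∧ i.val < 2 * 0 + 2) = ∅ := by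
      ext i
      simp only [Finset.mem_filter, Finset.mem_univ, true_and, Finset.notMem_empty, iff_false]
      omega
    rw [this, e_empty, one_smul]
    rfl
  | succ k ih =>
    have h1 : 2 * k + 2 < n := by omega
    have h2 : 2 * k + 3 < n := by omega
    have h3 := (ih (by omega)).mul ((mon_gx (F := F) h1).mul (mon_gx h2) (by simp))
      (by
        rw [Finset.disjoint_left]
        intro i hi
        simp only [Finset.mem_filter, Finset.mem_univ, true_and] at hi
        simp only [Finset.mem_union, Finset.mem_singleton, Fin.ext_iff]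
        omega)
    have h4 : (Finset.univ.filter fun i : Fin n => 2 ≤ i.val ∧ i.val < 2 * (k + 1) + 2) =
        (Finset.univ.filter fun i : Fin n => 2 ≤ i.val ∧ i.val < 2 * k + 2) ∪
          ({⟨2 * k + 2, h1⟩} ∪ {⟨2 * k + 3, h2⟩}) := by
      ext i
      simp only [Finset.mem_filter, Finset.mem_univ, true_and, Finset.mem_union,
        Finset.mem_singleton, Fin.ext_iff]
      omega
    rw [h4]
    exact h3

lemma add_pow_of_sq {A : Type*} [Ring A] {a b : A} (hc : a * b = b * a) (hb : b * b = 0) (j : ℕ) :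
    (a + b) ^ (j + 1) = a ^ (j + 1) + (j + 1) • (a ^ j * b) := by
  induction j with
  | zero => simp
  | succ j ih =>
    have h1 : a ^ j * b * a = a ^ (j + 1) * b := by rw [mul_assoc, ← hc, ← mul_assoc, ← pow_succ]
    have h2 : a ^ j * b * b = 0 := by rw [mul_assoc, hb, mul_zero]
    rw [pow_succ, ih, mul_add, add_mul, add_mul, smul_mul_assoc, smul_mul_assoc, h1, h2, smul_zero,
      add_zero, ← pow_succ, add_smul (j + 1) 1, one_smul]
    abel

lemma pair_sq (i j : ℕ) : (gx F n i * gx F n j) * (gx F n i * gx F n j) = 0 := by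
  rw [← mul_assoc, pair_central, ← mul_assoc, gx_mul_self, zero_mul, zero_mul]

lemma qq_pow (k : ℕ) : (qq F n k) ^ k = (k.factorial : F) • PP F n k ∧ (qq F n k) ^ (k + 1) = 0 := by
  induction k with
  | zero => simp [qq, PP]
  | succ k ih =>
    obtain ⟨ih1, ih2⟩ := ih
    have hs : qq F n (k + 1) = qq F n k + gx F n (2 * k + 2) * gx F n (2 * k + 3) := by
      rw [qq, Finset.sum_range_succ]; rfl
    have hc := (pair_central (2 * k + 2) (2 * k + 3) (qq F n k)).symm
    have hb := pair_sq (F := F) (n := n) (2 * k + 2) (2 * k + 3)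
    constructor
    · rw [hs, add_pow_of_sq hc hb, ih2, zero_add, ih1, PP, smul_mul_assoc, Nat.factorial_succ,
        ← Nat.cast_smul_eq_nsmul F, smul_smul]
      push_cast
      rfl
    · rw [hs, add_pow_of_sq hc hb, ih2, zero_mul, smul_zero, add_zero, pow_succ, ih2, zero_mul]

lemma q_pow_mem {a : ℤ} (hn : 2 ≤ n) {z : Gr F n} (hz : z ∈ V F n a) (j : ℕ) :
    (q F n) ^ j * z ∈ V F n (2 * j + a) := by
  induction j with
  | zero => simpa using hz
  | succ j ih =>
    rw [pow_succ', mul_assoc]
    have := mul_mem_V (q_mem_V (F := F) hn) ih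
    have h2 : (2 : ℤ) + (2 * j + a) = 2 * ((j + 1 : ℕ) : ℤ) + a := by push_cast; ring
    rwa [h2] at this

lemma Rx_pow [CharZero F] (hn : 2 ≤ n) {a : ℤ} {z : Gr F n} (hz : z ∈ V F n a) (j : ℕ)
    (hj : ∀ i : ℕ, i < j → 2 * (i : ℤ) + a ≠ -2) :
    ∃ c : F, c ≠ 0 ∧ ((Rx F n : Module.End F (Gr F n)) ^ j) z = c • ((q F n) ^ j * z) := by
  induction j with
  | zero => exact ⟨1, one_ne_zero, by simp⟩
  | succ j ih =>
    obtain ⟨c, hc, h⟩ := ih fun i hi => hj i (by omega)
    have h1 := q_pow_mem hn hz j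
    have h2 := hj j (Nat.lt_succ_self j)
    refine ⟨c * (((2 * j + a : ℤ) : F) + 2)⁻¹, mul_ne_zero hc (inv_ne_zero ?_), ?_⟩
    · have : ((2 * j + a + 2 : ℤ) : F) ≠ 0 := Int.cast_ne_zero.mpr (by omega)
      push_cast at this ⊢
      exact this
    · rw [pow_succ', Module.End.mul_apply, h, map_smul, Rx_ne hn h2 h1, smul_smul, pow_succ',
        mul_assoc]

lemma dg_zero (h : 0 < n) : dg n ⟨0, h⟩ = -2 * (n / 2 : ℕ) := by simp [dg]

lemma q_pow_a (j : ℕ) :
    (q F n) ^ j * gx F n 0 = (qq F n (n / 2 - 1)) ^ j * gx F n 0 := by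
  induction j with
  | zero => simp
  | succ j ih =>
    have h1 : gx F n 0 * gx F n (2 * (n / 2)) * (qq F n (n / 2 - 1) ^ j * gx F n 0) = 0 := by
      rw [pair_central, mul_assoc, ← mul_assoc (gx F n 0) (gx F n 0), gx_mul_self, zero_mul,
        mul_zero]
    rw [pow_succ', mul_assoc, ih, q, add_mul, h1, add_zero, ← mul_assoc, ← pow_succ']

lemma Rx_pow_ne_zero [CharZero F] (hn : 2 ≤ n) :
    (Rx F n : Module.End F (Gr F n)) ^ (n - 1) ≠ 0 := by
  set m : ℕ := n / 2 with hm
  have ha : gx F n 0 ∈ V F n (-2 * (m : ℤ)) := by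
    have h := gx_mem_V (F := F) (n := n) (i := 0) (by omega)
    rwa [dg_zero] at h
  have hv := v_mem_V (F := F) hn
  -- step 1
  obtain ⟨c, hc, h1⟩ := Rx_pow hn ha (m - 1) (fun i hi => by omega)
  have hS : Mon ((q F n) ^ (m - 1) * gx F n 0) (S n) := by
    rw [q_pow_a, ← hm, (qq_pow (m - 1)).1, smul_mul_assoc]
    refine Mon.smul ?_ (Nat.cast_ne_zero.mpr (Nat.factorial_ne_zero _))
    have h0 : 0 < n := by omega
    have := (mon_PP (F := F) (n := n) (m - 1) (by omega)).mul (mon_gx (F := F) h0)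
      (by
        rw [Finset.disjoint_left]
        intro i hi
        simp only [Finset.mem_filter, Finset.mem_univ, true_and] at hi
        simp only [Finset.mem_singleton, Fin.ext_iff]
        omega)
    have hSe : S n = (Finset.univ.filter fun i : Fin n => 2 ≤ i.val ∧ i.val < 2 * (m - 1) + 2) ∪
        {⟨0, h0⟩} := by
      ext i
      have := i.isLt
      simp only [S, Finset.mem_filter, Finset.mem_univ, true_and, Finset.mem_union,
        Finset.mem_singleton, Fin.ext_iff]
      omega
    rw [hSe]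
    exact this
  have hlam : lam F n ((q F n) ^ (m - 1) * gx F n 0) ≠ 0 := by
    obtain ⟨d, hd, h⟩ := hS
    rw [h, map_smul]
    simpa [lam] using hd
  have hmem : (q F n) ^ (m - 1) * gx F n 0 ∈ V F n (-2) := by
    have := q_pow_mem hn ha (m - 1)
    have h2 : 2 * ((m - 1 : ℕ) : ℤ) + -2 * (m : ℤ) = -2 := by omega
    rwa [h2] at this
  -- step 2 : jump to `v`
  have h2 : ((Rx F n : Module.End F (Gr F n)) ^ m) (gx F n 0)
      = (c * lam F n ((q F n) ^ (m - 1) * gx F n 0)) • gx F n 1 := by
    have e1 : m = (m - 1) + 1 := by omega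
    conv_lhs => rw [e1]
    rw [pow_succ', Module.End.mul_apply, h1, map_smul, Rx_eq hn hmem, smul_smul]
  -- step 3
  obtain ⟨d, hd, h3⟩ := Rx_pow hn hv (n - 1 - m) (fun i hi => by omega)
  have h4 : (q F n) ^ (n - 1 - m) * gx F n 1 ≠ 0 := by
    have h10 : 1 < n := by omega
    rcases Nat.even_or_odd' n with ⟨k, hk | hk⟩
    · have hkm : k = m := by omega
      have e1 : n - 1 - m = m - 1 := by omega
      have e2 : q F n = qq F n (m - 1) := by
        rw [q, ← hm, gx_eq_zero (n := n) (i := 2 * m) (by omega), mul_zero, add_zero]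
      rw [e1, e2, (qq_pow (m - 1)).1, smul_mul_assoc]
      refine (Mon.smul ((mon_PP (F := F) (n := n) (m - 1) (by omega)).mul (mon_gx (F := F) h10)
        ?_) (Nat.cast_ne_zero.mpr (Nat.factorial_ne_zero _))).ne_zero
      rw [Finset.disjoint_left]
      intro i hi
      simp only [Finset.mem_filter, Finset.mem_univ, true_and] at hi
      simp only [Finset.mem_singleton, Fin.ext_iff]
      omega
    · have hkm : k = m := by omega
      have e1 : n - 1 - m = (m - 1) + 1 := by omega
      have h0 : 0 < n := by omega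
      have h2m : 2 * m < n := by omega
      rw [e1, q, ← hm, add_pow_of_sq (pair_central _ _ _).symm (pair_sq _ _), (qq_pow (m - 1)).2,
        zero_add, (qq_pow (m - 1)).1, ← Nat.cast_smul_eq_nsmul F, smul_mul_assoc, smul_mul_assoc,
        smul_mul_assoc]
      refine (Mon.smul (Mon.smul (((mon_PP (F := F) (n := n) (m - 1) (by omega)).mul
        ((mon_gx (F := F) h0).mul (mon_gx (F := F) h2m) ?_) ?_).mul (mon_gx (F := F) h10) ?_)
        (Nat.cast_ne_zero.mpr (Nat.factorial_ne_zero _)))
        (Nat.cast_ne_zero.mpr (Nat.succ_ne_zero _))).ne_zero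
      · rw [Finset.disjoint_left]
        intro i hi
        simp only [Finset.mem_singleton, Fin.ext_iff] at hi ⊢
        omega
      · rw [Finset.disjoint_left]
        intro i hi
        simp only [Finset.mem_filter, Finset.mem_univ, true_and] at hi
        simp only [Finset.mem_union, Finset.mem_singleton, Fin.ext_iff]
        omega
      · rw [Finset.disjoint_left]
        intro i hi
        simp only [Finset.mem_filter, Finset.mem_univ, true_and, Finset.mem_union,
          Finset.mem_singleton, Fin.ext_iff] at hi ⊢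
        omega
  intro hzero
  have h5 : ((Rx F n : Module.End F (Gr F n)) ^ (n - 1)) (gx F n 0) = 0 := by
    rw [hzero, LinearMap.zero_apply]
  have e5 : n - 1 = (n - 1 - m) + m := by omega
  rw [e5, pow_add, Module.End.mul_apply, h2, map_smul, h3, smul_smul] at h5
  exact smul_ne_zero (mul_ne_zero (mul_ne_zero hc hlam) hd) h4 h5

/-- For `n = 1`: the operator `x ↦ (constant term of x) • e₁`. -/
noncomputable def R1 (F : Type*) [Field F] (n : ℕ) : Gr F n →ₗ[F] Gr F n :=
  ((e F n).coord ∅).smulRight (gx F n 0)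

lemma coord_empty_mul_gx (y : Gr F n) (i : ℕ) :
    (e F n).coord ∅ (y * gx F n i) = 0 ∧ (e F n).coord ∅ (gx F n i * y) = 0 := by
  by_cases hi : i < n
  · have hy : y ∈ Submodule.span F (Set.range (e F n)) := (e F n).mem_span y
    induction hy using Submodule.span_induction with
    | mem y hy =>
      obtain ⟨s, rfl⟩ := hy
      rw [gx_eq hi]
      obtain ⟨c, hc⟩ := e_mul (F := F) s {⟨i, hi⟩}
      obtain ⟨d, hd⟩ := e_mul (F := F) {⟨i, hi⟩} s
      have h1 : (s ∪ {⟨i, hi⟩} : Finset (Fin n)) ≠ ∅ := by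
        intro h
        have h2 : (⟨i, hi⟩ : Fin n) ∈ (∅ : Finset (Fin n)) := by rw [← h]; simp
        simp at h2
      have h3 : ({⟨i, hi⟩} ∪ s : Finset (Fin n)) ≠ ∅ := by
        intro h
        have h2 : (⟨i, hi⟩ : Fin n) ∈ (∅ : Finset (Fin n)) := by rw [← h]; simp
        simp at h2
      rw [hc, hd, map_smul, map_smul]
      generalize (s ∪ {⟨i, hi⟩} : Finset (Fin n)) = t at h1
      generalize ({⟨i, hi⟩} ∪ s : Finset (Fin n)) = u at h3
      simp [h1, h3]
    | zero => simp
    | add x y _ _ hx hy => simp only [add_mul, mul_add, map_add, hx.1, hx.2, hy.1, hy.2]; simp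
    | smul c x _ hx => simp only [smul_mul_assoc, mul_smul_comm, map_smul, hx.1, hx.2]; simp
  · rw [gx_eq_zero (by omega)]; simp

lemma R1_rb : IsRotaBaxter (R1 F n) := by
  intro x y
  simp only [R1, LinearMap.smulRight_apply, gx_mul_self, smul_zero, map_add,
    smul_mul_assoc, mul_smul_comm, map_smul, (coord_empty_mul_gx x 0).1,
    (coord_empty_mul_gx y 0).2, smul_zero, zero_smul, add_zero]

lemma R1_ne_zero (hn : 1 ≤ n) : (R1 F n) ≠ 0 := by
  intro h
  have h1 : R1 F n 1 = 0 := by rw [h]; rfl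
  have h2 : (e F n).coord ∅ 1 = 1 := by rw [← e_empty]; simp
  rw [R1, LinearMap.smulRight_apply, h2, one_smul, gx_eq (show 0 < n by omega)] at h1
  exact (e F n).ne_zero _ h1

end Lower

/-- **Main theorem.** Over a field of characteristic `0`, for every `n ≥ 1`, the least `m` such
that `R ^ m = 0` for every Rota–Baxter operator `R` of weight `0` on the Grassmann algebra on `n`
generators is `max n 2`. -/
theorem rbIndex (F : Type*) [Field F] [CharZero F] (n : ℕ) (hn : 1 ≤ n) :
    IsRBIndex F (ExteriorAlgebra F (Fin n → F)) (max n 2) := by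
  constructor
  · intro R hR
    exact upper hR hn
  · intro m hm
    by_contra hlt
    rw [not_le] at hlt
    rcases Nat.lt_or_ge n 2 with h | h
    · -- `n = 1`
      have hm1 : m ≤ 1 := by omega
      have h1 := hm (R1 F n) R1_rb
      have h2 : (R1 F n : Module.End F (Gr F n)) ^ 1 = 0 := by
        rw [← Nat.sub_add_cancel hm1, pow_add]
        rw [h1, mul_zero]
      exact R1_ne_zero hn (by rwa [pow_one] at h2)
    · have hm1 : m ≤ n - 1 := by omega
      have h1 := hm (Rx F n) (Rx_rb h)
      refine Rx_pow_ne_zero (F := F) h ?_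
      rw [← Nat.sub_add_cancel hm1, pow_add]
      rw [h1, mul_zero]

end Pool.Agent.RBGrassmann
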